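import Pool.Agent.GEN.StmtsZD

/-!
# Squad GEN: row CNG, confluence of the relations for all sets of monomials
-/

set_option autoImplicit false

namespace Pool.Agent.GEN.H50

open PowerSeries Finset

variable {σ : Type}

theorem stab_sub {I : Finset (σ →₀ ℕ)} {K K' : Finset σ} (h : Stab I K) (hK : K' ⊆ K)
    (hn : K'.Nonempty) : Stab I K' :=
  ⟨hn, fun α hα => (Finset.sum_le_sum_of_subset hK).trans (h.2.1 α hα), fun j hj => h.2.2 j (hK hj)⟩

/-- every weak stable set contains a circuit -/
theorem exists_circ {I : Finset (σ →₀ ℕ)} : ∀ (n : ℕ) (K : Finset σ), K.card = n → KS I K →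
    ∃ K' ⊆ K, Circ I K' := by
  classical
  intro n
  induction n using Nat.strong_induction_on with
  | _ n ih =>
    intro K hn hK
    by_cases hc : ∀ K' ⊆ K, K'.Nonempty → K' ≠ K → K'.card ≤ Module.finrank ℚ (VK I K')
    · exact ⟨K, subset_rfl, hK, hc⟩
    · push Not at hc
      obtain ⟨K', hs, hne, hneq, hlt⟩ := hc
      have hcard : K'.card < n := by
        rw [← hn]
        exact card_lt_card (lt_of_le_of_ne hs hneq)
      obtain ⟨K'', hs', hc'⟩ := ih _ hcard K' rfl ⟨stab_sub hK.1 hs hne, hlt⟩
      exact ⟨K'', hs'.trans hs, hc'⟩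

/-- a nonzero entry in a stable set is one -/
theorem stab_one {I : Finset (σ →₀ ℕ)} {K : Finset σ} (h : Stab I K) {α : σ →₀ ℕ} (hα : α ∈ I)
    {j : σ} (hj : j ∈ K) (h0 : α j ≠ 0) : α j = 1 := by
  have h1 := h.2.1 α hα
  have h2 : α j ≤ ∑ i ∈ K, α i := Finset.single_le_sum (f := fun i => α i) (fun _ _ => Nat.zero_le _) hj
  omega

/-- a monomial contains at most one variable of a stable set -/
theorem stab_uniq {I : Finset (σ →₀ ℕ)} {K : Finset σ} (h : Stab I K) {α : σ →₀ ℕ} (hα : α ∈ I)
    {i j : σ} (hi : i ∈ K) (hj : j ∈ K) (hi0 : α i ≠ 0) (hj0 : α j ≠ 0) : i = j := by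
  classical
  by_contra hne
  have h1 := h.2.1 α hα
  have h2 : ∑ l ∈ ({i, j} : Finset σ), α l ≤ ∑ l ∈ K, α l :=
    Finset.sum_le_sum_of_subset (by
      intro l hl
      rw [mem_insert, mem_singleton] at hl
      rcases hl with rfl | rfl
      · exact hi
      · exact hj)
  rw [Finset.sum_pair hne] at h2
  omega

theorem cng (_hD : DcbStmt) (hR : RhbStmt) (hL : LmxStmt) (hSD : SwdStmt) (hSW : SwiStmt) :
    CngStmt := by
  classical
  intro σ _ M J z c hrel
  have hu : IsUnit (1 - X : ℤ⟦X⟧) := by
    rw [PowerSeries.isUnit_iff_constantCoeff]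
    simp
  have main : ∀ (n : ℕ) (I : Finset (σ →₀ ℕ)), I ⊆ M → I.card = n → ∀ K : Finset σ,
      Disjoint K J → KS I K → rho (X : ℤ⟦X⟧) z I K = c := by
    intro n
    induction n using Nat.strong_induction_on with
    | _ n ih =>
      intro I hI hn K hKJ hK
      have hbelow : RelBelow (X : ℤ⟦X⟧) J z c I := by
        intro I' K' hI' hne hKJ' hK'
        refine ih I'.card ?_ I' (hI'.trans hI) rfl K' hKJ' hK'
        rw [← hn]
        exact card_lt_card (lt_of_le_of_ne hI' hne)
      have cancel : ∀ (m : ℕ) (a b : ℤ⟦X⟧), a = (1 - X) ^ m * b → (a = 0 ↔ b = 0) := by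
        intro m a b hab
        rw [hab, (hu.pow m).mul_right_eq_zero]
      -- comparison with a circuit
      have step1 : ∀ K K' : Finset σ, Disjoint K J → KS I K → K' ⊆ K → Circ I K' →
          (rho (X : ℤ⟦X⟧) z I K = c ↔ rho (X : ℤ⟦X⟧) z I K' = c) := by
        intro K K' hKJ hK hs hc
        have h1 := cancel _ _ _ (hR σ ℤ⟦X⟧ X z c J I K K' hbelow hK.1 hKJ hs hc.1)
        rwa [sub_eq_zero, sub_eq_zero] at h1
      -- two circuits
      have step2 : ∀ (m : ℕ) (K₁ K₂ : Finset σ), (K₂ \ K₁).card = m → Disjoint K₁ J →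
          Disjoint K₂ J → Circ I K₁ → Circ I K₂ → rho (X : ℤ⟦X⟧) z I K₁ = c →
          rho (X : ℤ⟦X⟧) z I K₂ = c := by
        intro m
        induction m using Nat.strong_induction_on with
        | _ m ih2 =>
          intro K₁ K₂ hm h1J h2J hc1 hc2 hr1
          by_cases hadj : ∃ j₁ ∈ K₁, ∃ j₂ ∈ K₂, j₁ ≠ j₂ ∧ ∃ α ∈ I, α j₁ = 1 ∧ α j₂ = 1
          · obtain ⟨P, Q, hP, hQ, hPK, hB⟩ := hL σ I K₁ K₂ hc1 hc2 hadj
            have hSQ : (K₂ \ Q) ∪ Q = K₂ := sdiff_union_of_subset hQ
            have hdS : Disjoint (K₂ \ Q) Q := sdiff_disjoint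
            have hcS : Circ I ((K₂ \ Q) ∪ Q) := by
              rw [hSQ]
              exact hc2
            have hPS : Disjoint P ((K₂ \ Q) ∪ Q) := by
              rw [hSQ]
              exact hPK
            have hPJ : Disjoint P J := disjoint_of_subset_left hP h1J
            have hJ : Disjoint ((K₂ \ Q) ∪ P ∪ Q) J := by
              rw [disjoint_union_left, disjoint_union_left]
              exact ⟨⟨disjoint_of_subset_left sdiff_subset h2J, hPJ⟩,
                disjoint_of_subset_left hQ h2J⟩
            have hSPJ : Disjoint ((K₂ \ Q) ∪ P) J := disjoint_of_subset_left subset_union_left hJ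
            have hsw := hSW σ ℤ⟦X⟧ X hu z c J I (K₂ \ Q) P Q hbelow hcS hdS hPS hB hJ
            rw [hSQ] at hsw
            have hKS := (hSD σ I (K₂ \ Q) P Q hcS hdS hPS hB).2.1
            obtain ⟨K₃, h3, hc3⟩ := exists_circ _ _ rfl hKS
            have hQK1 : ∀ q ∈ Q, q ∉ K₁ := by
              intro q hq hq1
              obtain ⟨α, hα, hαq⟩ := hB.occQ q hq
              rcases hB.once α hα with h | h
              · have hex : ∃ p ∈ P, α p ≠ 0 := by
                  by_contra hno
                  push Not at hno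
                  rw [Finset.sum_eq_zero hno] at h
                  exact absurd h.1 (by omega)
                obtain ⟨p, hp, hp0⟩ := hex
                have := stab_uniq hc1.1.1 hα (hP hp) hq1 hp0 (by omega)
                exact hB.disj p hp (this ▸ hq)
              · have := h q (Or.inr hq)
                omega
            have hlt : (K₃ \ K₁).card < m := by
              rw [← hm]
              refine card_lt_card ?_
              have hQne : Q.Nonempty := by
                rw [← card_pos, ← hB.card, card_pos]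
                exact hB.ne
              obtain ⟨q, hq⟩ := hQne
              rw [Finset.ssubset_iff_of_subset]
              · refine ⟨q, mem_sdiff.2 ⟨hQ hq, hQK1 q hq⟩, fun h => ?_⟩
                have h4 := h3 (mem_sdiff.1 h).1
                rcases mem_union.1 h4 with h5 | h5
                · exact (mem_sdiff.1 h5).2 hq
                · exact hB.disj q h5 hq
              · intro x hx
                obtain ⟨hx3, hx1⟩ := mem_sdiff.1 hx
                rcases mem_union.1 (h3 hx3) with h5 | h5
                · exact mem_sdiff.2 ⟨(mem_sdiff.1 h5).1, hx1⟩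
                · exact absurd (hP h5) hx1
            have h6 := ih2 _ hlt K₁ K₃ rfl h1J (disjoint_of_subset_left h3 hSPJ) hc1 hc3 hr1
            rw [← hsw]
            exact (step1 _ _ hSPJ hKS h3 hc3).2 h6
          · -- the union is stable
            have hst : Stab I (K₁ ∪ K₂) := by
              refine ⟨hc1.1.1.1.mono subset_union_left, fun α hα => ?_, fun j hj => ?_⟩
              · have e : ∑ j ∈ K₁ ∪ K₂, α j = ∑ j ∈ K₁, α j + ∑ j ∈ K₂ \ K₁, α j := by
                  rw [← Finset.sum_union disjoint_sdiff, union_sdiff_self_eq_union]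
                have h1 := hc1.1.1.2.1 α hα
                have h2 : ∑ j ∈ K₂ \ K₁, α j ≤ 1 :=
                  (Finset.sum_le_sum_of_subset sdiff_subset).trans (hc2.1.1.2.1 α hα)
                by_contra hlt
                push Not at hlt
                have h3 : ∑ j ∈ K₁, α j ≠ 0 := by omega
                have h4 : ∑ j ∈ K₂ \ K₁, α j ≠ 0 := by omega
                obtain ⟨j₁, hj₁, h5⟩ := Finset.exists_ne_zero_of_sum_ne_zero h3
                obtain ⟨j₂, hj₂, h6⟩ := Finset.exists_ne_zero_of_sum_ne_zero h4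
                obtain ⟨hj₂, hj₂'⟩ := mem_sdiff.1 hj₂
                exact hadj ⟨j₁, hj₁, j₂, hj₂, fun h => hj₂' (h ▸ hj₁), α, hα,
                  stab_one hc1.1.1 hα hj₁ h5, stab_one hc2.1.1 hα hj₂ h6⟩
              · rcases mem_union.1 hj with h | h
                · exact hc1.1.1.2.2 j h
                · exact hc2.1.1.2.2 j h
            have hJ : Disjoint (K₁ ∪ K₂) J := disjoint_union_left.2 ⟨h1J, h2J⟩
            have e1 := cancel _ _ _
              (hR σ ℤ⟦X⟧ X z c J I (K₁ ∪ K₂) K₁ hbelow hst hJ subset_union_left hc1.1)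
            have e2 := cancel _ _ _
              (hR σ ℤ⟦X⟧ X z c J I (K₁ ∪ K₂) K₂ hbelow hst hJ subset_union_right hc2.1)
            rw [sub_eq_zero, sub_eq_zero] at e1 e2
            exact e2.1 (e1.2 hr1)
      -- the chosen set
      have hred : Red I J := ⟨K, hKJ, hK⟩
      obtain ⟨h1, h2⟩ := Kc_spec hred
      have h3 : rho (X : ℤ⟦X⟧) z I (Kc I J) = c := hrel I hI hred
      obtain ⟨K₁, hs1, hc1⟩ := exists_circ _ _ rfl h2
      obtain ⟨K₂, hs2, hc2⟩ := exists_circ _ _ rfl hK
      have h4 := (step1 _ _ h1 h2 hs1 hc1).1 h3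
      have h5 := step2 _ K₁ K₂ rfl (disjoint_of_subset_left hs1 h1)
        (disjoint_of_subset_left hs2 hKJ) hc1 hc2 h4
      exact (step1 _ _ hKJ hK hs2 hc2).2 h5
  intro I K hI hKJ hK
  exact main _ I hI rfl K hKJ hK

end Pool.Agent.GEN.H50
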