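import Pool.Agent.GEN.StmtsPT

/-!
# Row DBC of the squad GEN, block PT: the double complex
-/

set_option autoImplicit false

namespace Pool.Agent.GEN.H50

open Finset Pool.Agent.Helper6_Mono Pool.Agent.Helper30_Simp Pool.Agent.Helper30_Simp2
  Pool.Agent.GEN Pool.Agent.GEN.PT
open scoped Classical

section lists

set_option linter.unusedSectionVars false

variable {Λ D : Type} [Fintype Λ]

theorem dbc_gd_erase {F : Finset (Finset Λ)} {W : Finset Λ → Finset (Finset D)}
    {l : List (Finset Λ × Finset D)} (h : Gd F W l) (i : ℕ) : Gd F W (l.eraseIdx i) :=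
  ⟨h.1.sublist (List.eraseIdx_sublist l i),
    fun e he => h.2 e ((List.eraseIdx_sublist l i).subset he)⟩

theorem dbc_lastT {l : List (Finset Λ × Finset D)} (hne : l ≠ []) :
    lastT l = (l.getLast hne).1 := by
  unfold lastT
  rw [List.getLast?_eq_getLast_of_ne_nil hne]
  rfl

theorem dbc_lastQ {l : List (Finset Λ × Finset D)} (hne : l ≠ []) :
    lastQ l = (l.getLast hne).2 := by
  unfold lastQ
  rw [List.getLast?_eq_getLast_of_ne_nil hne]
  rfl

theorem dbc_last_le {l : List (Finset Λ × Finset D)} (h : l.Pairwise le2) (hne : l ≠ [])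
    (e : Finset Λ × Finset D) (he : e ∈ l) :
    (l.getLast hne).1 ⊆ e.1 ∧ e.2 ⊆ (l.getLast hne).2 := by
  have h0 : l.dropLast ++ [l.getLast hne] = l := List.dropLast_append_getLast hne
  have h1 := h
  have h2 := he
  rw [← h0] at h1 h2
  rw [List.pairwise_append] at h1
  rw [List.mem_append] at h2
  rcases h2 with h2 | h2
  · exact h1.2.2 e h2 _ (List.mem_singleton.2 rfl)
  · rw [List.mem_singleton] at h2
    rw [← h2]
    exact ⟨fun a ha => ha, fun a ha => ha⟩

theorem dbc_sub {l l' : List (Finset Λ × Finset D)} (h : l.Pairwise le2)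
    (hs : l'.Sublist l) : lastT l ⊆ lastT l' ∧ lastQ l' ⊆ lastQ l := by
  by_cases hne' : l' = []
  · subst hne'
    constructor
    · intro a _
      simp [lastT]
    · intro a ha
      simp [lastQ] at ha
  · have hne : l ≠ [] := by
      intro h0
      subst h0
      exact hne' (List.sublist_nil.1 hs)
    rw [dbc_lastT hne, dbc_lastT hne', dbc_lastQ hne, dbc_lastQ hne']
    exact dbc_last_le h hne _ (hs.subset (List.getLast_mem hne'))

theorem dbc_last_mem {F : Finset (Finset Λ)} {W : Finset Λ → Finset (Finset D)}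
    {l : List (Finset Λ × Finset D)} (h : Gd F W l) (hne : l ≠ []) :
    lastT l ∈ F ∧ lastQ l ∈ W (lastT l) := by
  rw [dbc_lastQ hne, dbc_lastT hne]
  exact h.2 _ (List.getLast_mem hne)

end lists

section dls

variable {E V : Type} [AddCommGroup V]

theorem dbc_dl_congr {x y : List E → V} {l : List E}
    (h : ∀ i < l.length, x (l.eraseIdx i) = y (l.eraseIdx i)) : dl x l = dl y l := by
  unfold dl
  refine Finset.sum_congr rfl fun i hi => ?_
  rw [h i (Finset.mem_range.1 hi)]

theorem dbc_dl_zero (l : List E) : dl (fun _ => (0 : V)) l = 0 := by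
  unfold dl
  simp

theorem dbc_dl_sub (x y : List E → V) (l : List E) :
    dl (fun l' => x l' - y l') l = dl x l - dl y l := by
  unfold dl
  rw [← Finset.sum_sub_distrib]
  refine Finset.sum_congr rfl fun i _ => ?_
  rw [smul_sub]

end dls

section main

variable {Λ D A : Type} [Fintype Λ] [Fintype D] [CommRing A]

theorem dbc_res_dl {E : Type} (T : Finset Λ) (x : List E → MvPolynomial Λ A) (l : List E) :
    res T (dl x l) = dl (fun l' => res T (x l')) l := by
  unfold dl
  rw [map_sum]
  refine Finset.sum_congr rfl fun i _ => ?_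
  rw [map_zsmul]

theorem dbc_kd_dl {E : Type} (ν : D → ℕ) (f : D → MvPolynomial Λ A)
    (x : List E → Finset D → MvPolynomial Λ A) (l : List E) (S : Finset D) :
    kd ν f (fun S' => dl (fun l' => x l' S') l) S = dl (fun l' => kd ν f (x l') S) l := by
  unfold kd dl
  simp only [Finset.mul_sum, Finset.smul_sum, mul_smul_comm]
  rw [Finset.sum_comm]

theorem dbc_kd_sub (ν : D → ℕ) (f : D → MvPolynomial Λ A)
    (x y : Finset D → MvPolynomial Λ A) (S : Finset D) :
    kd ν f (fun S' => x S' - y S') S = kd ν f x S - kd ν f y S := by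
  unfold kd
  rw [← Finset.sum_sub_distrib]
  refine Finset.sum_congr rfl fun i _ => ?_
  ring

theorem dbc_kd_zero (ν : D → ℕ) (f : D → MvPolynomial Λ A) (S : Finset D) :
    kd ν f (fun _ => 0) S = 0 := by
  unfold kd
  simp

theorem dbc_res_res (h2 : PipStmt) (T T' : Finset Λ) (hs : T ⊆ T') (p : MvPolynomial Λ A) :
    res T (res T' p) = res T p := by
  rw [(h2 Λ A ∅).1 T T' p, Finset.inter_eq_left.2 hs]

theorem dbc_kd_res (h2 : PipStmt) (h4 : Kd2Stmt) (ν : D → ℕ) (hν : Function.Injective ν)
    (f : D → MvPolynomial Λ A) (T : Finset Λ) (x : Finset D → MvPolynomial Λ A)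
    (S : Finset D) :
    res T (kd ν f (fun S' => res T (x S')) S) = res T (kd ν f x S) := by
  have hb := (h4 D (MvPolynomial Λ A) ν hν).2.1 (MvPolynomial Λ A)
    ((res (A := A) T : MvPolynomial Λ A →ₐ[A] MvPolynomial Λ A) :
      MvPolynomial Λ A →+* MvPolynomial Λ A)
  have e1 := hb f (fun S' => res T (x S')) S
  have e2 := hb f x S
  simp only [RingHom.coe_coe] at e1 e2
  rw [e1, e2]
  have e3 : (fun S' => res T (res T (x S'))) = fun S' => res T (x S') := by
    funext S'
    exact dbc_res_res h2 T T (fun a ha => ha) _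
  rw [e3]

theorem dbc_aux (h1 : DlxStmt) (h2 : PipStmt) (h3 : RowStmt) (h4 : Kd2Stmt) (h5 : KotStmt)
    (ν : D → ℕ) (hν : Function.Injective ν) (F : Finset (Finset Λ))
    (W : Finset Λ → Finset (Finset D)) (f : D → MvPolynomial Λ A) (hC : Ctn F W)
    (hR : ∀ T ∈ F, ∀ Q ∈ W T, Rgl f T Q) (k : ℕ) :
    ∀ (n : ℕ), Fintype.card D < n + 1 + k →
    ∀ (z : List (Finset Λ × Finset D) → Finset D → MvPolynomial Λ A),
      (∀ l, l.length = n + 1 → Gd F W l → ∃ y : Finset D → MvPolynomial Λ A,
        Hg (n + 1) (lastQ l) y ∧ ∀ S, res (lastT l) (kd ν f y S) = z l S) →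
      (∀ l, l.length = n + 2 → Gd F W l → ∀ S, res (lastT l) (dl (fun l' => z l' S) l) = 0) →
      ∃ w : List (Finset Λ × Finset D) → Finset D → MvPolynomial Λ A,
        (∀ l, l.length = n + 1 → Gd F W l → (∀ S, w l S ≠ 0 → S.card = n + 1) ∧
          (∀ S, res (lastT l) (w l S) = w l S) ∧ ∀ S, res (lastT l) (kd ν f (w l) S) = z l S) ∧
        ∀ l, l.length = n + 2 → Gd F W l → ∀ S, res (lastT l) (dl (fun l' => w l' S) l) = 0 := by
  induction k with
  | zero =>
    intro n hn z H1 _
    refine ⟨fun _ _ => 0, ?_, ?_⟩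
    · intro l hl hG
      refine ⟨fun S hS => absurd rfl hS, fun S => map_zero _, ?_⟩
      obtain ⟨y, hy1, hy2⟩ := H1 l hl hG
      have hy : y = fun _ => 0 := by
        funext S
        by_contra hS
        have h6 := (hy1 S hS).1
        have h7 := Finset.card_le_univ S
        omega
      intro S
      have h8 := hy2 S
      rw [hy] at h8
      exact h8
    · intro l _ _ S
      rw [dbc_dl_zero]
      exact map_zero _
  | succ k IH =>
    intro n hn z H1 H2
    choose! Y hY1 hY2 using H1
    -- the reduced choice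
    let x : List (Finset Λ × Finset D) → Finset D → MvPolynomial Λ A :=
      fun l S => res (lastT l) (Y l S)
    have hx : ∀ l S, x l S = res (lastT l) (Y l S) := fun _ _ => rfl
    have x1 : ∀ l, l.length = n + 1 → Gd F W l → Hg (n + 1) (lastQ l) (x l) := by
      intro l hl hG S hS
      apply hY1 l hl hG S
      intro h0
      apply hS
      rw [hx, h0]
      exact map_zero _
    have x2 : ∀ l S, res (lastT l) (x l S) = x l S := by
      intro l S
      rw [hx]
      exact dbc_res_res h2 _ _ (fun a ha => ha) _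
    have x3 : ∀ l, l.length = n + 1 → Gd F W l → ∀ S,
        res (lastT l) (kd ν f (x l) S) = z l S := by
      intro l hl hG S
      rw [← hY2 l hl hG S]
      exact dbc_kd_res h2 h4 ν hν f (lastT l) (Y l) S
    let x' : List (Finset Λ × Finset D) → Finset D → MvPolynomial Λ A :=
      fun l S => res (lastT l) (dl (fun l' => x l' S) l)
    have hx' : ∀ l S, x' l S = res (lastT l) (dl (fun l' => x l' S) l) := fun _ _ => rfl
    have hsub : ∀ l, Gd F W l → ∀ i, lastT l ⊆ lastT (l.eraseIdx i) ∧
        lastQ (l.eraseIdx i) ⊆ lastQ l := fun l hG i =>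
      dbc_sub hG.1 (List.eraseIdx_sublist l i)
    have hlen : ∀ (m : ℕ) (l : List (Finset Λ × Finset D)), l.length = m + 1 → ∀ i < l.length,
        (l.eraseIdx i).length = m := by
      intro m l hl i hi
      rw [List.length_eraseIdx_of_lt hi, hl]
      rfl
    -- H1 for `x'`
    have K1 : ∀ l, l.length = n + 1 + 1 → Gd F W l → ∃ y : Finset D → MvPolynomial Λ A,
        Hg (n + 1 + 1) (lastQ l) y ∧ ∀ S, res (lastT l) (kd ν f y S) = x' l S := by
      intro l hl hG
      have hne : l ≠ [] := by
        intro h0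
        rw [h0] at hl
        simp at hl
      have hm := dbc_last_mem hG hne
      have hH : Hg (n + 1) (lastQ l) (x' l) := by
        intro S hS
        have h6 : ∃ i < l.length, x (l.eraseIdx i) S ≠ 0 := by
          by_contra h7
          push Not at h7
          apply hS
          rw [hx']
          have h8 : dl (fun l' => x l' S) l = dl (fun _ => 0) l := dbc_dl_congr h7
          rw [h8, dbc_dl_zero]
          exact map_zero _
        obtain ⟨i, hi, hi'⟩ := h6
        have h7 := x1 (l.eraseIdx i) (hlen _ l hl i hi) (dbc_gd_erase hG i) S hi'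
        exact ⟨h7.1, fun a ha => (hsub l hG i).2 (h7.2 ha)⟩
      have hz : ∀ S, res (lastT l) (kd ν f (x' l) S) = 0 := by
        intro S
        have e1 : res (lastT l) (kd ν f (x' l) S) =
            res (lastT l) (kd ν f (fun S' => dl (fun l' => x l' S') l) S) :=
          dbc_kd_res h2 h4 ν hν f (lastT l) (fun S' => dl (fun l' => x l' S') l) S
        rw [e1, dbc_kd_dl, dbc_res_dl]
        have e2 : dl (fun l' => res (lastT l) (kd ν f (x l') S)) l =
            dl (fun l' => res (lastT l) (z l' S)) l := by
          apply dbc_dl_congr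
          intro i hi
          show res (lastT l) (kd ν f (x (l.eraseIdx i)) S) = res (lastT l) (z (l.eraseIdx i) S)
          rw [← x3 (l.eraseIdx i) (hlen _ l hl i hi) (dbc_gd_erase hG i) S]
          rw [dbc_res_res h2 _ _ (hsub l hG i).1]
        rw [e2, ← dbc_res_dl]
        exact H2 l hl hG S
      obtain ⟨y, hy1, _, hy3⟩ := (h5 Λ D A ν hν f (lastT l) (lastQ l)).1
        (hR _ hm.1 _ hm.2) n (x' l) hH hz
      refine ⟨y, hy1, fun S => ?_⟩
      rw [hy3 S, hx']
      exact dbc_res_res h2 _ _ (fun a ha => ha) _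
    have K2 : ∀ l, l.length = n + 1 + 2 → Gd F W l → ∀ S,
        res (lastT l) (dl (fun l' => x' l' S) l) = 0 := by
      intro l hl hG S
      rw [dbc_res_dl]
      have e1 : dl (fun l' => res (lastT l) (x' l' S)) l =
          dl (fun l' => res (lastT l) (dl (fun l'' => x l'' S) l')) l := by
        apply dbc_dl_congr
        intro i _
        show res (lastT l) (x' (l.eraseIdx i) S) =
          res (lastT l) (dl (fun l'' => x l'' S) (l.eraseIdx i))
        rw [hx']
        exact dbc_res_res h2 _ _ (hsub l hG i).1 _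
      rw [e1, ← dbc_res_dl]
      have e2 : dl (fun l' => dl (fun l'' => x l'' S) l') l = 0 :=
        (h1 (Finset Λ × Finset D) (MvPolynomial Λ A)).2.2.1 (fun l'' => x l'' S) l
      rw [e2]
      exact map_zero _
    obtain ⟨w', w1, w2⟩ := IH (n + 1) (by omega) x' K1 K2
    have hrow : ∀ S : Finset D, ∃ v : List (Finset Λ × Finset D) → MvPolynomial Λ A,
        (∀ l, l.length = n + 1 → Gd F W l → res (lastT l) (v l) = v l) ∧
        ∀ l, l.length = n + 1 + 1 → Gd F W l → res (lastT l) (dl v l) = w' l S := by
      intro S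
      exact h3 Λ D A F W hC (n + 1) (fun l => w' l S)
        (fun l hl hG => (w1 l hl hG).2.1 S) (fun l hl hG => w2 l hl hG S)
    choose V hV1 hV2 using hrow
    let v : List (Finset Λ × Finset D) → Finset D → MvPolynomial Λ A :=
      fun l S => if S.card = n + 1 + 1 then V S l else 0
    have hv : ∀ l S, v l S = if S.card = n + 1 + 1 then V S l else 0 := fun _ _ => rfl
    have v1 : ∀ l, Hg (n + 1 + 1) univ (v l) := by
      intro l S hS
      refine ⟨?_, Finset.subset_univ S⟩
      by_contra h0
      apply hS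
      rw [hv, if_neg h0]
    have v2 : ∀ l, l.length = n + 1 + 1 → Gd F W l → ∀ S,
        res (lastT l) (dl (fun l' => v l' S) l) = w' l S := by
      intro l hl hG S
      by_cases hS : S.card = n + 1 + 1
      · rw [← hV2 S l hl hG]
        have e1 : (fun l' => v l' S) = V S := by
          funext l'
          rw [hv, if_pos hS]
        rw [e1]
      · have e1 : (fun l' => v l' S) = fun _ => 0 := by
          funext l'
          rw [hv, if_neg hS]
        rw [e1, dbc_dl_zero, map_zero]
        by_contra h0
        exact hS ((w1 l hl hG).1 S (fun h6 => h0 h6.symm))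
    refine ⟨fun l S => x l S - res (lastT l) (kd ν f (v l) S), ?_, ?_⟩
    · intro l hl hG
      refine ⟨?_, ?_, ?_⟩
      · intro S hS
        by_cases hxS : x l S = 0
        · have h6 : kd ν f (v l) S ≠ 0 := by
            intro h0
            apply hS
            show x l S - res (lastT l) (kd ν f (v l) S) = 0
            rw [hxS, h0, map_zero, sub_zero]
          exact ((h4 D (MvPolynomial Λ A) ν hν).2.2.2 f (v l) (n + 1) univ (v1 l) S h6).1
        · exact (x1 l hl hG S hxS).1
      · intro S
        show res (lastT l) (x l S - res (lastT l) (kd ν f (v l) S)) =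
          x l S - res (lastT l) (kd ν f (v l) S)
        rw [map_sub, x2, dbc_res_res h2 _ _ (fun a ha => ha)]
      · intro S
        have e1 : kd ν f (fun S' => x l S' - res (lastT l) (kd ν f (v l) S')) S =
            kd ν f (x l) S - kd ν f (fun S' => res (lastT l) (kd ν f (v l) S')) S :=
          dbc_kd_sub ν f (x l) (fun S' => res (lastT l) (kd ν f (v l) S')) S
        show res (lastT l) (kd ν f (fun S' => x l S' - res (lastT l) (kd ν f (v l) S')) S) =
          z l S
        rw [e1, map_sub, x3 l hl hG S]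
        have e2 : res (lastT l) (kd ν f (fun S' => res (lastT l) (kd ν f (v l) S')) S) =
            res (lastT l) (kd ν f (fun S' => kd ν f (v l) S') S) :=
          dbc_kd_res h2 h4 ν hν f (lastT l) (fun S' => kd ν f (v l) S') S
        rw [e2]
        have e3 : kd ν f (fun S' => kd ν f (v l) S') S = 0 :=
          (h4 D (MvPolynomial Λ A) ν hν).1 f (v l) S
        rw [e3, map_zero, sub_zero]
    · intro l hl hG S
      have e0 : dl (fun l' => x l' S - res (lastT l') (kd ν f (v l') S)) l =
          dl (fun l' => x l' S) l - dl (fun l' => res (lastT l') (kd ν f (v l') S)) l :=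
        dbc_dl_sub (fun l' => x l' S) (fun l' => res (lastT l') (kd ν f (v l') S)) l
      show res (lastT l) (dl (fun l' => x l' S - res (lastT l') (kd ν f (v l') S)) l) = 0
      rw [e0, map_sub]
      have e1 : res (lastT l) (dl (fun l' => res (lastT l') (kd ν f (v l') S)) l) =
          res (lastT l) (dl (fun l' => kd ν f (v l') S) l) := by
        rw [dbc_res_dl, dbc_res_dl]
        apply dbc_dl_congr
        intro i _
        exact dbc_res_res h2 _ _ (hsub l hG i).1 _
      rw [e1, ← dbc_kd_dl]
      rw [← dbc_kd_res h2 h4 ν hν f (lastT l) (fun S' => dl (fun l' => v l' S') l) S]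
      have e2 : (fun S' => res (lastT l) (dl (fun l' => v l' S') l)) = w' l := by
        funext S'
        exact v2 l hl hG S'
      show res (lastT l) (dl (fun l' => x l' S) l) -
        res (lastT l) (kd ν f (fun S' => res (lastT l) (dl (fun l' => v l' S') l)) S) = 0
      rw [e2, (w1 l hl hG).2.2 S, hx', sub_self]

end main

/-- Row DBC. -/
theorem dbc (h1 : DlxStmt) (h2 : PipStmt) (h3 : RowStmt) (h4 : Kd2Stmt) (h5 : KotStmt) :
    DbcStmt := by
  intro Λ D A _ _ _ ν hν F W f hC hR n z H1 H2
  exact dbc_aux h1 h2 h3 h4 h5 ν hν F W f hC hR (Fintype.card D) n (by omega) z H1 H2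

end Pool.Agent.GEN.H50
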