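import Pool.Agent.GEN.StmtsZ
import Pool.Agent.Helper22_GEN.Core

/-!
# Squad GEN: row KPA, bases without private coordinates
-/

set_option autoImplicit false

namespace Pool.Agent.GEN.H50

open Finset Submodule Pool.Agent.GEN.H22

variable {σ : Type}

/-- stability of a set of variables with small exponents -/
theorem stab_of {I : Finset (σ →₀ ℕ)} {K : Finset σ} (hS : S1 I) (hne : K.Nonempty)
    (h1 : ∀ j ∈ K, ∀ α ∈ I, α j ≤ 1) (h2 : ∀ j ∈ K, ∃ α ∈ I, α j = 1) : Stab I K := by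
  classical
  refine ⟨hne, fun α hα => ?_, h2⟩
  by_cases h : ∃ j ∈ K, α j = 1
  · obtain ⟨j, hj, hj1⟩ := h
    rw [Finset.sum_eq_single_of_mem j hj]
    · exact hj1.le
    · intro i hi hij
      have := h1 i hi α hα
      have h3 : α i ≠ 1 := fun h => hij (hS α hα i j h hj1)
      omega
  · push Not at h
    rw [Finset.sum_eq_zero]
    · exact Nat.zero_le _
    · intro i hi
      have := h1 i hi α hα
      have h3 := h i hi
      omega

/-- the rank of the monomials which meet `K` -/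
theorem rank_le [Fintype σ] {I : Finset (σ →₀ ℕ)} {K : Finset σ} (hS : S1 I)
    (h1 : ∀ j ∈ K, ∀ α ∈ I, α j ≤ 1) (h2 : ∀ j ∈ K, ∃ α ∈ I, α j = 1)
    (h3 : K.card ≤ Module.finrank ℚ (VK I K)) (W : Submodule ℚ (σ → ℚ))
    (hW : ∀ α ∈ I, ∀ j ∈ K, α j = 1 → cv α ∈ W) :
    2 * K.card ≤ Module.finrank ℚ W := by
  classical
  have hVW : VK I K ≤ W := by
    refine span_le.2 ?_
    rintro v ⟨j, hj, α, hα, β, hβ, hα1, hβ1, rfl⟩
    exact sub_mem (hW α hα j hj hα1) (hW β hβ j hj hβ1)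
  let R : (σ → ℚ) →ₗ[ℚ] (K → ℚ) := LinearMap.funLeft ℚ ℚ (fun k : K => (k : σ))
  have hR : ∀ (v : σ → ℚ) (k : K), R v k = v k := fun v k => rfl
  have key : ∀ α ∈ I, ∀ j ∈ K, α j = 1 → ∀ k : K, R (cv α) k = if (k : σ) = j then 1 else 0 := by
    intro α hα j hj hα1 k
    rw [hR]
    by_cases hk : (k : σ) = j
    · rw [if_pos hk, hk]
      simp [cv, hα1]
    · rw [if_neg hk]
      have h4 := h1 k k.2 α hα
      have h5 : α (k : σ) ≠ 1 := fun h => hk (hS α hα _ _ h hα1)
      have h6 : α (k : σ) = 0 := by omega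
      simp [cv, h6]
  have hVR : VK I K ≤ LinearMap.ker R := by
    refine span_le.2 ?_
    rintro v ⟨j, hj, α, hα, β, hβ, hα1, hβ1, rfl⟩
    rw [SetLike.mem_coe, LinearMap.mem_ker]
    have h4 : (fun i => (α i : ℚ) - (β i : ℚ)) = cv α - cv β := rfl
    rw [h4, map_sub]
    ext k
    rw [Pi.sub_apply, key α hα j hj hα1, key β hβ j hj hβ1, sub_self]
    rfl
  have hrn := LinearMap.finrank_range_add_finrank_ker (R.domRestrict W)
  have hrange : LinearMap.range (R.domRestrict W) = ⊤ := by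
    rw [eq_top_iff]
    intro f _
    rw [pi_eq_sum_univ f]
    refine sum_mem fun k _ => smul_mem _ _ ?_
    obtain ⟨α, hα, hα1⟩ := h2 k k.2
    refine ⟨⟨cv α, hW α hα k k.2 hα1⟩, ?_⟩
    ext k'
    rw [LinearMap.domRestrict_apply, key α hα k k.2 hα1 k']
    by_cases h : k = k'
    · simp [h]
    · have h' : (k' : σ) ≠ k := fun e => h (Subtype.ext e.symm)
      simp [h, h']
  have hker : Module.finrank ℚ (VK I K) ≤ Module.finrank ℚ (LinearMap.ker (R.domRestrict W)) := by
    rw [← (comapSubtypeEquivOfLe hVW).finrank_eq]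
    refine finrank_mono ?_
    intro v hv
    rw [LinearMap.mem_ker, LinearMap.domRestrict_apply]
    exact LinearMap.mem_ker.1 (hVR hv)
  rw [hrange, finrank_top, Module.finrank_fintype_fun_eq_card, Fintype.card_coe] at hrn
  omega

theorem kpa (h1 : RadStmt) : KpaStmt := by
  classical
  intro σ _ I T hS hK
  let T' : Finset σ := T.filter fun j => ∃ α ∈ I, α j ≠ 0
  let D : Finset σ := T'.filter fun j => ∀ α ∈ I, α j ≤ 1
  have hT' : ∀ {j}, j ∈ T' ↔ j ∈ T ∧ ∃ α ∈ I, α j ≠ 0 := by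
    intro j
    simp only [T', mem_filter]
  have hDm : ∀ {j}, j ∈ D ↔ j ∈ T' ∧ ∀ α ∈ I, α j ≤ 1 := by
    intro j
    simp only [D, mem_filter]
  have hD : ∀ j ∈ T', j ∉ D → ∃ b ∈ I, 2 ≤ b j := by
    intro j hj hjD
    rw [hDm] at hjD
    push Not at hjD
    obtain ⟨b, hb, hb1⟩ := hjD hj
    exact ⟨b, hb, hb1⟩
  have hD1 : ∀ α ∈ I, ∀ j ∈ D, α j ≤ 1 := fun α hα j hj => (hDm.1 hj).2 α hα
  have hD2 : ∀ j ∈ D, ∃ α ∈ I, α j = 1 := by
    intro j hj
    obtain ⟨α, hα, hα0⟩ := (hT'.1 (hDm.1 hj).1).2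
    have := hD1 α hα j hj
    exact ⟨α, hα, by omega⟩
  -- the independent family
  let E : D × Fin 2 → Finset (σ → ℚ) := fun q => (I.filter fun α => α (q.1 : σ) = 1).image cv
  obtain ⟨v, hvE, hvi⟩ := h1 (D × Fin 2) (σ → ℚ) E (by
    intro s
    let K : Finset σ := s.image fun q => (q.1 : σ)
    have hKD : K ⊆ D := by
      intro k hk
      obtain ⟨q, -, rfl⟩ := mem_image.1 hk
      exact q.1.2
    have hs : s.card ≤ 2 * K.card := by
      have h2 : (s.image fun q => ((q.1 : σ), q.2)).card = s.card := by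
        refine card_image_of_injective _ ?_
        rintro ⟨⟨a, ha⟩, b⟩ ⟨⟨c, hc⟩, d⟩ h
        simp only [Prod.mk.injEq] at h
        obtain ⟨rfl, rfl⟩ := h
        rfl
      have h3 : (s.image fun q => ((q.1 : σ), q.2)) ⊆ K ×ˢ (univ : Finset (Fin 2)) := by
        intro p hp
        obtain ⟨q, hq, rfl⟩ := mem_image.1 hp
        exact mem_product.2 ⟨mem_image.2 ⟨q, hq, rfl⟩, mem_univ _⟩
      have h4 := card_le_card h3
      rw [h2, card_product, card_univ, Fintype.card_fin] at h4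
      omega
    refine hs.trans ?_
    rcases K.eq_empty_or_nonempty with hK0 | hKn
    · rw [hK0, card_empty]
      exact Nat.zero_le _
    · have hst : Stab I K := stab_of hS hKn (fun j hj α hα => hD1 α hα j (hKD hj))
        (fun j hj => hD2 j (hKD hj))
      have hfr : K.card ≤ Module.finrank ℚ (VK I K) := by
        by_contra hlt
        push Not at hlt
        exact hK K (fun j hj => (hT'.1 (hDm.1 (hKD hj)).1).1) ⟨hst, hlt⟩
      refine rank_le hS (fun j hj α hα => hD1 α hα j (hKD hj)) (fun j hj => hD2 j (hKD hj)) hfr _ ?_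
      intro α hα j hj hα1
      obtain ⟨q, hq, hqj⟩ := mem_image.1 hj
      refine subset_span ⟨q, hq, ?_⟩
      refine mem_image.2 ⟨α, mem_filter.2 ⟨hα, ?_⟩, rfl⟩
      rw [← hqj] at hα1
      exact hα1)
  have hvE' : ∀ q, ∃ α, (α ∈ I ∧ α (q.1 : σ) = 1) ∧ cv α = v q := by
    intro q
    obtain ⟨α, hα, hαv⟩ := mem_image.1 (hvE q)
    exact ⟨α, mem_filter.1 hα, hαv⟩
  choose a ha hav using hvE'
  have hca : cv ∘ a = v := funext hav
  have hainj : Function.Injective a := by
    have := hvi.injective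
    rw [← hca] at this
    exact this.of_comp
  let P : Finset (σ →₀ ℕ) := univ.image a
  have hPI : P ⊆ I := by
    intro α hα
    obtain ⟨q, -, rfl⟩ := mem_image.1 hα
    exact (ha q).1
  have hPi : LinearIndepOn ℚ cv (P : Set (σ →₀ ℕ)) := by
    have h2 : (P : Set (σ →₀ ℕ)) = Set.range a := by
      simp [P]
    rw [h2, linearIndepOn_range_iff hainj, hca]
    exact hvi
  have hP2 : ∀ j ∈ D, 2 ≤ (P.filter fun α => α j ≠ 0).card := by
    intro j hj
    have h2 : ({a (⟨j, hj⟩, 0), a (⟨j, hj⟩, 1)} : Finset (σ →₀ ℕ)) ⊆ P.filter fun α => α j ≠ 0 := by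
      intro α hα
      rw [mem_insert, mem_singleton] at hα
      rcases hα with rfl | rfl
      · refine mem_filter.2 ⟨mem_image_of_mem _ (mem_univ _), ?_⟩
        have := (ha (⟨j, hj⟩, 0)).2
        simp only at this
        omega
      · refine mem_filter.2 ⟨mem_image_of_mem _ (mem_univ _), ?_⟩
        have := (ha (⟨j, hj⟩, 1)).2
        simp only at this
        omega
    have h3 := card_le_card h2
    rw [card_pair] at h3
    · exact h3
    · intro h
      have := hainj h
      simp at this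
  obtain ⟨B, hB, hBp⟩ := chain hS hD hD1 hPI hPi hP2
  refine ⟨B, hB.sub, ?_, ?_, ?_⟩
  · intro t ht
    have h2 := Fintype.linearIndependent_iff.1 hB.ind t (by
      ext j
      have := ht j
      simpa [cv, Finset.sum_apply] using this)
    exact funext h2
  · intro v hv α hα
    let L : (σ → ℚ) →ₗ[ℚ] ℚ := ∑ i, v i • LinearMap.proj i
    have hL : ∀ w, L w = ∑ i, v i * w i := by
      intro w
      simp [L]
    have h2 : span ℚ (cv '' (B : Set (σ →₀ ℕ))) ≤ LinearMap.ker L := by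
      refine span_le.2 ?_
      rintro _ ⟨β, hβ, rfl⟩
      rw [SetLike.mem_coe, LinearMap.mem_ker, hL]
      exact hv β hβ
    have h3 := LinearMap.mem_ker.1 (h2 (hB.spn α hα))
    rw [hL] at h3
    exact h3
  · intro A hA j hj hAj
    by_contra hno
    push Not at hno
    exact hBp j (hT'.2 ⟨hj, A, hB.sub hA, by omega⟩) ⟨A, hA, hAj, fun β hβ hne => hno β hβ hne⟩

end Pool.Agent.GEN.H50
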